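import Mathlib
import Pool.Agent.Helper30.CIR.Goals
import Pool.Agent.Helper57.RZ.T1

/-!
# Project CIR, packet UNI: uniform `C^1` closeness
-/

set_option autoImplicit false

open Set Filter Topology MeasureTheory

open scoped ContDiff

namespace Pool.Agent.Helper72.CIR

open Pool.Agent.Helper56.RZ Pool.Agent.Helper30.CIR

/-- uniform continuity in one real parameter -/
lemma unif1 {K : ℕ} {G : Type} [NormedAddCommGroup G] {M : Set (E K)} (hM : IsCompact M)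
    (Fn : ℝ × E K → G) (hF : ContinuousOn Fn (univ ×ˢ M)) (δ : ℝ) (hδ : 0 < δ) :
    ∃ θ0 > 0, ∀ th : ℝ, |th| ≤ θ0 → ∀ x ∈ M, ‖Fn (th, x) - Fn (0, x)‖ ≤ δ := by
  have hc : IsCompact (Icc (-1 : ℝ) 1 ×ˢ M) := isCompact_Icc.prod hM
  have hu := hc.uniformContinuousOn_of_continuous
    (hF.mono (prod_mono (subset_univ _) (le_refl M)))
  rw [Metric.uniformContinuousOn_iff] at hu
  obtain ⟨η, hη, h⟩ := hu δ hδ
  refine ⟨min 1 (η / 2), by positivity, ?_⟩
  intro th hth x hx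
  have h1 : |th| ≤ 1 := hth.trans (min_le_left _ _)
  have h2 : |th| < η := by
    have := hth.trans (min_le_right 1 (η / 2)); linarith
  have h3 := h (th, x) ⟨abs_le.1 h1, hx⟩ (0, x) ⟨⟨by norm_num, by norm_num⟩, hx⟩ (by
    rw [Prod.dist_eq, dist_self, Real.dist_eq, sub_zero]
    exact max_lt h2 hη)
  rw [dist_eq_norm] at h3
  exact h3.le

/-- uniform continuity in two real parameters -/
lemma unif2 {K : ℕ} {G : Type} [NormedAddCommGroup G] {M : Set (E K)} (hM : IsCompact M)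
    (Fn : (ℝ × ℝ) × E K → G) (hF : ContinuousOn Fn ({p : ℝ × ℝ | |p.1| < 1} ×ˢ M))
    (Θ : ℝ) (δ : ℝ) (hδ : 0 < δ) :
    ∃ c0 > 0, c0 ≤ 1 / 2 ∧ ∀ b th : ℝ, |b| ≤ c0 → 0 ≤ th → th ≤ Θ → ∀ x ∈ M,
      ‖Fn ((b, th), x) - Fn ((0, th), x)‖ ≤ δ := by
  have hc : IsCompact ((Icc (-(1 / 2) : ℝ) (1 / 2) ×ˢ Icc (0 : ℝ) Θ) ×ˢ M) :=
    (isCompact_Icc.prod isCompact_Icc).prod hM
  have hu := hc.uniformContinuousOn_of_continuous
    (hF.mono (prod_mono (fun p hp => by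
      have h1 := hp.1
      show |p.1| < 1
      rw [abs_lt]
      exact ⟨by linarith [h1.1], by linarith [h1.2]⟩) (le_refl M)))
  rw [Metric.uniformContinuousOn_iff] at hu
  obtain ⟨η, hη, h⟩ := hu δ hδ
  refine ⟨min (1 / 2) (η / 2), by positivity, min_le_left _ _, ?_⟩
  intro b th hb h0 hΘ x hx
  have h1 : |b| ≤ 1 / 2 := hb.trans (min_le_left _ _)
  have h2 : |b| < η := by
    have := hb.trans (min_le_right (1 / 2) (η / 2)); linarith
  have h3 := h ((b, th), x) ⟨⟨abs_le.1 h1, h0, hΘ⟩, hx⟩ ((0, th), x)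
    ⟨⟨⟨by norm_num, by norm_num⟩, h0, hΘ⟩, hx⟩ (by
    rw [Prod.dist_eq, Prod.dist_eq, dist_self, dist_self, Real.dist_eq, sub_zero]
    exact max_lt (max_lt h2 hη) hη)
  rw [dist_eq_norm] at h3
  exact h3.le

lemma del_zero {K : ℕ} (om : ℝ) (F : E K → ℂ) (x : E K) : del 0 om F x = 0 := by
  unfold del
  simp

lemma hh_zero {K : ℕ} (A : ℝ → E K → E K) (om th : ℝ) (F : E K → ℂ) (x : E K) :
    hh A 0 om th F x = A th x := by
  unfold hh
  rw [del_zero, add_zero]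

lemma hi_zero {K : ℕ} {s : WithTop ℕ∞} {M : Set (E K)} {A : ℝ → E K → E K} (hA : Flow s M A)
    (om th : ℝ) (F : E K → ℂ) (x : E K) (hx : x ∈ M) :
    hi A 0 om th F x = A (-th) x := by
  unfold hi
  rw [neg_zero, hh_zero, hA.zero _ (hA.maps _ hx)]

theorem gUNI : StmtJCD → StmtDIF → Pool.Agent.Helper30.CIR.StmtUNI := by
  intro hJ hD K s M A hs hs' hM hPi hA δ hδ
  have hT2 := Pool.Agent.Helper57.RZ.t2
  have hA1 : ContDiffOn ℝ 1 (fun p : ℝ × E K => A p.1 p.2) (univ ×ˢ M) := hA.smooth.of_le hs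
  constructor
  · obtain ⟨a, ha, h1⟩ := unif1 hM (fun p : ℝ × E K => A p.1 p.2) hA1.continuousOn δ hδ
    obtain ⟨b, hb, h2⟩ := unif1 hM (fun p : ℝ × E K => der M (A p.1) p.2)
      (hJ ℝ K M univ A isOpen_univ hPi hA1) δ hδ
    refine ⟨min a b, lt_min ha hb, ?_⟩
    intro th hth x hx
    have h3 := h1 th (hth.trans (min_le_left _ _)) x hx
    have h4 := h2 th (hth.trans (min_le_right _ _)) x hx
    have h5 : der M (A 0) x = Pi M x := by
      have h6 := (hT2 K M (A 0) id x hx).2.2.2.2 (fun y hy => hA.zero y hy)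
      rw [h6]
      exact (hT2 K M id id x hx).2.2.2.1
    simp only at h3 h4
    rw [hA.zero x hx] at h3
    rw [h5] at h4
    exact ⟨h3, h4⟩
  · intro F om Θ hF
    have hDD := (hD K s M A F om 0 0 hF (by norm_num) hs').2
    have hU : IsOpen {p : ℝ × ℝ | |p.1| < 1} :=
      isOpen_lt (continuous_abs.comp continuous_fst) continuous_const
    have hh1 := hDD.1.of_le hs
    have hi1 := hDD.2.of_le hs
    obtain ⟨a, ha, ha', h1⟩ := unif2 hM
      (fun p : (ℝ × ℝ) × E K => hh A p.1.1 om p.1.2 F p.2) hh1.continuousOn Θ δ hδ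
    obtain ⟨b, hb, hb', h2⟩ := unif2 hM
      (fun p : (ℝ × ℝ) × E K => der M (hh A p.1.1 om p.1.2 F) p.2)
      (hJ (ℝ × ℝ) K M {p : ℝ × ℝ | |p.1| < 1} (fun p => hh A p.1 om p.2 F) hU hPi hh1) Θ δ hδ
    obtain ⟨c, hc, hc', h3⟩ := unif2 hM
      (fun p : (ℝ × ℝ) × E K => der M (hi A p.1.1 om p.1.2 F) p.2)
      (hJ (ℝ × ℝ) K M {p : ℝ × ℝ | |p.1| < 1} (fun p => hi A p.1 om p.2 F) hU hPi hi1) Θ δ hδ
    refine ⟨min a (min b c), lt_min ha (lt_min hb hc), (min_le_left _ _).trans ha', ?_⟩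
    intro t th ht h0 hΘ x hx
    have k1 := h1 t th (ht.trans (min_le_left _ _)) h0 hΘ x hx
    have k2 := h2 t th (ht.trans ((min_le_right _ _).trans (min_le_left _ _))) h0 hΘ x hx
    have k3 := h3 t th (ht.trans ((min_le_right _ _).trans (min_le_right _ _))) h0 hΘ x hx
    have e2 : der M (hh A 0 om th F) x = der M (A th) x :=
      (hT2 K M _ _ x hx).2.2.2.2 (fun y _ => hh_zero A om th F y)
    have e3 : der M (hi A 0 om th F) x = der M (A (-th)) x :=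
      (hT2 K M _ _ x hx).2.2.2.2 (fun y hy => hi_zero hA om th F y hy)
    simp only at k1 k2 k3
    rw [hh_zero] at k1
    rw [e2] at k2
    rw [e3] at k3
    exact ⟨k1, k2, k3⟩

end Pool.Agent.Helper72.CIR
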